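import Pool.Agent.Y149.TL.Uni

/-!
# Varieties whose cohomology is algebraic up to newforms of weight two: definitions

`f x`, `x ∈ Ω`, are pairwise different newforms of weight two (for `Γ₀(L x)`), for instance all of
them.  A smooth projective variety `Y` over `ℚ` is of modular type, with the multiplicities `τ c` and
`m c x`, if the semisimplification of `H^c(Y)` is the sum of `τ c` copies of `ℚ_ℓ(-c/2)` and of `m c x`
copies of the Galois representation of `f x`, twisted to the weight `c`, for all `x`.
-/

set_option autoImplicit false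

namespace Pool.Agent.U187.MF

open Filter Topology CongruenceSubgroup
open scoped MatrixGroups
open Pool.Agent.Y149.PK (Variety)
open Pool.Agent.W165.RS (ac)

/-- `f x`, `x ∈ Ω`, are normalised cusp forms of weight two on `Γ₀(L x)` with the properties of
newforms (`Pool.Agent.TH941.Hecke`: real Fourier coefficients `c(n)`, `c(1) = 1`, the Hecke relations,
the bounds `|c(p)| ≤ 2 √p` for `p ∤ L x` and `|c(p)| ≤ 1` for `p ∣ L x`), pairwise different: for
`x ≠ y` the `p`-th coefficients are different for some prime `p` not dividing `L x` and `L y`.  The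
family of all newforms of weight two with trivial character has these properties (strong multiplicity
one). -/
structure IsNewforms {Ω : Type} (L : Ω → ℕ)
    (f : ∀ x, CuspForm (Gamma0 (L x) : Subgroup (GL (Fin 2) ℝ)) 2) : Prop where
  pos : ∀ x, L x ≠ 0
  hecke : ∀ x, Pool.Agent.TH941.Hecke (f x)
  ne : ∀ x y, x ≠ y → ∃ p : ℕ, p.Prime ∧ ¬ p ∣ L x ∧ ¬ p ∣ L y ∧ ac (f x) p ≠ ac (f y) p

/-- The variety `Y` over `ℚ` is of modular type: `H^c(Y)` is the sum of `τ c` lines on which almost
all Frobenius elements act by `p^{c/2}`, and of `m c x` copies of the two-dimensional Galois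
representation of the newform `f x`, twisted to the weight `c` (this is possible for odd `c` only), for
all `x`.  So the `c`-th Betti number is `τ c + 2 ∑_x m c x`, and for almost all primes `p` the trace of
Frobenius on `H^c(Y)` is `p^{c/2} (τ c + ∑_x m c x a_p(f x) / √p)`. -/
structure IsModularType {Ω : Type} {L : Ω → ℕ}
    (f : ∀ x, CuspForm (Gamma0 (L x) : Subgroup (GL (Fin 2) ℝ)) 2) (Y : Variety) (τ : ℕ → ℕ)
    (m : ℕ → Ω →₀ ℕ) : Prop where
  betti : ∀ c, Y.betti c = τ c + 2 * (m c).sum fun _ k => k
  trace : ∀ᶠ p : Nat.Primes in cofinite, ∀ c, (Y.frob p c).sum =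
    ((Real.sqrt (p : ℕ) : ℝ) : ℂ) ^ c *
      (τ c + (m c).sum fun x k => (k : ℂ) * (ac (f x) p / (Real.sqrt (p : ℕ) : ℝ)))

/-- A family of varieties `Y e`, `e ∈ ι`, of modular type, with the multiplicities `τ e` and `m e`;
`H^c(Y e)` has at most `t c` algebraic lines and at most `h c` two-dimensional pieces, counted with
multiplicity; and for every `e` there are at most `M` members `e'` for which a newform occurs in both
`H^c(Y e)` and `H^c(Y e')`, for some `c`. -/
structure IsModularFamily {Ω : Type} {L : Ω → ℕ}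
    (f : ∀ x, CuspForm (Gamma0 (L x) : Subgroup (GL (Fin 2) ℝ)) 2) {ι : Type} (Y : ι → Variety)
    (τ : ι → ℕ → ℕ) (m : ι → ℕ → Ω →₀ ℕ) (t h : ℕ → ℕ) (M : ℕ) : Prop where
  type : ∀ e, IsModularType f (Y e) (τ e) (m e)
  lines : ∀ e c, τ e c ≤ t c
  forms : ∀ e c, ((m e c).sum fun _ k => k) ≤ h c
  bounded : ∃ d, ∀ c, d < c → t c = 0 ∧ h c = 0
  mult : ∀ (e : ι) (S : Finset ι), (∀ e' ∈ S, ∃ c x, m e c x ≠ 0 ∧ m e' c x ≠ 0) → S.card ≤ M

end Pool.Agent.U187.MF
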