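import Pool.Agent.U187.MF.Defs

/-! The family of normalised traces of varieties of modular type is almost orthogonal. -/

set_option autoImplicit false

open Finset Filter Topology Complex Polynomial CongruenceSubgroup

namespace Pool.Agent.U187.MF

open scoped MatrixGroups
open Pool.Agent.H341R2 (E lam lam_tendsto lam_bounded)
open Pool.Agent.Y149.CM (LFun kunneth nt)
open Pool.Agent.Y149.PK
open Pool.Agent.Y722.RS (S2 rc tt tt_le cross_le self_le rc_eq)
open Pool.Agent.W165.RS (ac)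

section
variable {Ω : Type} {L : Ω → ℕ} {f : ∀ x, CuspForm (Gamma0 (L x) : Subgroup (GL (Fin 2) ℝ)) 2}

/-- the normalised trace of a sum of newforms -/
noncomputable def WW (f : ∀ x, CuspForm (Gamma0 (L x) : Subgroup (GL (Fin 2) ℝ)) 2) (a : Ω →₀ ℕ)
    (p : Nat.Primes) : ℝ :=
  a.sum fun x k => (k : ℝ) * tt (f x) p

theorem tt_le' (hf : IsNewforms L f) (x : Ω) (p : Nat.Primes) : |tt (f x) p| ≤ 2 := by
  have : NeZero (L x) := ⟨hf.pos x⟩
  exact tt_le (hf.hecke x) p.2

theorem WW_le (hf : IsNewforms L f) (a : Ω →₀ ℕ) (p : Nat.Primes) :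
    |WW f a p| ≤ 2 * ((a.sum fun _ k => k : ℕ) : ℝ) := by
  unfold WW Finsupp.sum
  refine (Finset.abs_sum_le_sum_abs _ _).trans ?_
  push_cast
  rw [Finset.mul_sum]
  refine Finset.sum_le_sum fun x _ => ?_
  rw [abs_mul, abs_of_nonneg (Nat.cast_nonneg _)]
  have := tt_le' hf x p
  nlinarith [Nat.cast_nonneg (α := ℝ) (a x)]

/-- one-sided orthogonality of two newforms -/
theorem pair_le (hf : IsNewforms L f) (x y : Ω) : ∃ C : ℝ, ∀ᶠ ε : ℝ in 𝓝[>] 0,
    (E ε fun p : Nat.Primes => tt (f x) p * tt (f y) p) ≤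
      (open Classical in if x = y then lam ε else 0) + C := by
  classical
  have hx : NeZero (L x) := ⟨hf.pos x⟩
  have hy : NeZero (L y) := ⟨hf.pos y⟩
  by_cases hxy : x = y
  · subst hxy
    obtain ⟨C, hC⟩ := self_le (hf.hecke x)
    obtain ⟨C', hC'⟩ := lam_bounded
    refine ⟨C + C', ?_⟩
    filter_upwards [hC, hC'] with ε h1 h2
    rw [if_pos rfl]
    have e3 : Real.log (1 / ε) = -Real.log ε := by rw [one_div, Real.log_inv]
    rw [e3] at h1
    have h3 := (abs_le.1 h2).1
    linarith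
  · obtain ⟨p, hp, h1, h2, h3⟩ := hf.ne x y hxy
    obtain ⟨C, hC⟩ := cross_le (hf.hecke x) (hf.hecke y) hp h1 h2 (by
      intro h
      apply h3
      rw [rc_eq (hf.hecke x).real, rc_eq (hf.hecke y).real, h])
    refine ⟨C, hC.mono fun ε h8 => ?_⟩
    rw [if_neg hxy, zero_add]
    exact h8

/-- **One-sided orthogonality of sums of newforms.** -/
theorem comb_le (hf : IsNewforms L f) (a b : Ω →₀ ℕ) : ∃ C : ℝ, ∀ᶠ ε : ℝ in 𝓝[>] 0,
    (E ε fun p : Nat.Primes => WW f a p * WW f b p) ≤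
      ((a.sum fun x k => k * b x : ℕ) : ℝ) * lam ε + C := by
  classical
  choose C hC using pair_le hf
  refine ⟨∑ x ∈ a.support, ∑ y ∈ b.support, (a x : ℝ) * (b y) * C x y, ?_⟩
  have hev : ∀ᶠ ε : ℝ in 𝓝[>] 0, ∀ x ∈ a.support, ∀ y ∈ b.support,
      (E ε fun p : Nat.Primes => tt (f x) p * tt (f y) p) ≤
        (if x = y then lam ε else 0) + C x y := by
    rw [Filter.eventually_all_finset]
    intro x _
    rw [Filter.eventually_all_finset]
    intro y _
    exact hC x y
  filter_upwards [hev, self_mem_nhdsWithin] with ε h1 h2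
  have hε : (0 : ℝ) < ε := h2
  have hb : ∀ x y (p : Nat.Primes), |(a x : ℝ) * (b y) * (tt (f x) p * tt (f y) p)| ≤
      (a x : ℝ) * (b y) * 4 := by
    intro x y p
    rw [abs_mul, abs_of_nonneg (by positivity)]
    refine mul_le_mul_of_nonneg_left ?_ (by positivity)
    rw [abs_mul]
    have g1 := tt_le' hf x p
    have g2 := tt_le' hf y p
    nlinarith [abs_nonneg (tt (f x) p), abs_nonneg (tt (f y) p)]
  have e1 : (E ε fun p : Nat.Primes => WW f a p * WW f b p) =
      ∑ x ∈ a.support, ∑ y ∈ b.support, (a x : ℝ) * (b y) *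
        E ε fun p : Nat.Primes => tt (f x) p * tt (f y) p := by
    have e2 : (fun p : Nat.Primes => WW f a p * WW f b p) = fun p : Nat.Primes =>
        ∑ x ∈ a.support, ∑ y ∈ b.support, (a x : ℝ) * (b y) * (tt (f x) p * tt (f y) p) := by
      funext p
      unfold WW Finsupp.sum
      rw [Finset.sum_mul_sum]
      refine Finset.sum_congr rfl fun x _ => Finset.sum_congr rfl fun y _ => ?_
      ring
    rw [e2, E_fsum hε a.support _ (fun x => ∑ y ∈ b.support, (a x : ℝ) * (b y) * 4)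
      (fun x _ p => (Finset.abs_sum_le_sum_abs _ _).trans
        (Finset.sum_le_sum fun y _ => hb x y p))]
    refine Finset.sum_congr rfl fun x _ => ?_
    rw [E_fsum hε b.support _ (fun y => (a x : ℝ) * (b y) * 4) (fun y _ p => hb x y p)]
    exact Finset.sum_congr rfl fun y _ => E_smul ε _ _
  rw [e1]
  have e3 : ((a.sum fun x k => k * b x : ℕ) : ℝ) * lam ε +
      ∑ x ∈ a.support, ∑ y ∈ b.support, (a x : ℝ) * (b y) * C x y =
      ∑ x ∈ a.support, ∑ y ∈ b.support,
        (a x : ℝ) * (b y) * ((if x = y then lam ε else 0) + C x y) := by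
    unfold Finsupp.sum
    push_cast
    rw [Finset.sum_mul, ← Finset.sum_add_distrib]
    refine Finset.sum_congr rfl fun x _ => ?_
    have e4 : ∑ y ∈ b.support, (a x : ℝ) * (b y) * ((if x = y then lam ε else 0) + C x y) =
        (∑ y ∈ b.support, if x = y then (a x : ℝ) * (b y) * lam ε else 0) +
          ∑ y ∈ b.support, (a x : ℝ) * (b y) * C x y := by
      rw [← Finset.sum_add_distrib]
      refine Finset.sum_congr rfl fun y _ => ?_
      by_cases hxy : x = y
      · rw [if_pos hxy, if_pos hxy]; ring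
      · rw [if_neg hxy, if_neg hxy]; ring
    rw [e4, Finset.sum_ite_eq]
    by_cases hx : x ∈ b.support
    · rw [if_pos hx]
    · rw [if_neg hx, Finsupp.notMem_support_iff.1 hx]
      simp
  rw [e3]
  refine Finset.sum_le_sum fun x hx => Finset.sum_le_sum fun y hy => ?_
  exact mul_le_mul_of_nonneg_left (h1 x hx y hy) (by positivity)

theorem sq_sum_le (a : Ω →₀ ℕ) : (a.sum fun x k => k * a x) ≤ (a.sum fun _ k => k) ^ 2 := by
  unfold Finsupp.sum
  rw [sq, Finset.sum_mul]
  refine Finset.sum_le_sum fun x hx => ?_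
  exact Nat.mul_le_mul_left _ (Finset.single_le_sum (f := fun y => a y) (fun _ _ => Nat.zero_le _) hx)

end

section
variable {Ω : Type} {L : Ω → ℕ} {f : ∀ x, CuspForm (Gamma0 (L x) : Subgroup (GL (Fin 2) ℝ)) 2}
  {ι : Type} {Y : ι → Variety} {τ : ι → ℕ → ℕ} {m : ι → ℕ → Ω →₀ ℕ} {t h : ℕ → ℕ} {M : ℕ}

/-- the Betti numbers of a family -/
def NN (t h : ℕ → ℕ) (c : ℕ) : ℕ := t c + 2 * h c

/-- the relation: there is a common newform -/
def Rel (m : ι → ℕ → Ω →₀ ℕ) (e e' : ι) : Prop := ∃ c x, m e c x ≠ 0 ∧ m e' c x ≠ 0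

/-- the normalised traces -/
noncomputable def TM (f : ∀ x, CuspForm (Gamma0 (L x) : Subgroup (GL (Fin 2) ℝ)) 2)
    (τ : ι → ℕ → ℕ) (m : ι → ℕ → Ω →₀ ℕ) (e : ι) (c : ℕ) (p : Nat.Primes) : ℝ :=
  τ e c + WW f (m e c) p

theorem betti_le (hY : IsModularFamily f Y τ m t h M) (e : ι) (c : ℕ) :
    (Y e).betti c ≤ NN t h c := by
  rw [(hY.type e).betti c]
  exact Nat.add_le_add (hY.lines e c) (Nat.mul_le_mul_left 2 (hY.forms e c))

/-- **The family of the traces.** -/
theorem fam_mod (hf : IsNewforms L f) (hY : IsModularFamily f Y τ m t h M) :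
    Fam (Rel m) M (TM f τ m) (fun e c => (τ e c : ℝ)) (fun c => (NN t h c : ℝ))
      (fun c => (t c : ℝ)) (fun c => (h c : ℝ)) := by
  have e0 : ∀ e c p, TM f τ m e c p - τ e c = WW f (m e c) p := by
    intro e c p
    unfold TM
    ring
  refine ⟨fun e c p => ?_, fun e c => ?_, fun c => Nat.cast_nonneg _, fun e c => ?_,
    fun e e' c hR => ?_, fun e e' hR => ?_, hY.mult⟩
  · unfold TM NN
    refine (abs_add_le _ _).trans ?_
    push_cast
    refine add_le_add ?_ ?_
    · rw [abs_of_nonneg (Nat.cast_nonneg _)]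
      exact_mod_cast hY.lines e c
    · refine (WW_le hf _ p).trans ?_
      exact mul_le_mul_of_nonneg_left (by exact_mod_cast hY.forms e c) (by norm_num)
  · rw [abs_of_nonneg (Nat.cast_nonneg _)]
    exact_mod_cast hY.lines e c
  · obtain ⟨C, hC⟩ := comb_le hf (m e c) (m e c)
    refine ⟨C, ?_⟩
    filter_upwards [hC, lam_pos] with ε h1 h2
    have e1 : (fun p => (TM f τ m e c p - τ e c) ^ 2) =
        fun p => WW f (m e c) p * WW f (m e c) p := by
      funext p
      rw [e0 e c p, sq]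
    rw [e1]
    refine h1.trans (add_le_add (mul_le_mul_of_nonneg_right ?_ h2.le) le_rfl)
    have h3 := (sq_sum_le (m e c)).trans (Nat.pow_le_pow_left (hY.forms e c) 2)
    exact_mod_cast h3
  · obtain ⟨C, hC⟩ := comb_le hf (m e c) (m e' c)
    refine ⟨C, ?_⟩
    filter_upwards [hC] with ε h1
    have e1 : (fun p => (TM f τ m e c p - τ e c) * (TM f τ m e' c p - τ e' c)) =
        fun p => WW f (m e c) p * WW f (m e' c) p := by
      funext p
      rw [e0 e c p, e0 e' c p]
    rw [e1]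
    refine h1.trans (le_of_eq ?_)
    have e2 : ((m e c).sum fun x k => k * (m e' c) x) = 0 := by
      unfold Finsupp.sum
      refine Finset.sum_eq_zero fun x hx => ?_
      have h3 : m e' c x = 0 := by
        by_contra h3
        exact hR ⟨c, x, Finsupp.mem_support_iff.1 hx, h3⟩
      beta_reduce
      rw [h3, mul_zero]
    rw [e2]
    simp
  · obtain ⟨c, x, h1, h2⟩ := hR
    exact ⟨c, x, h2, h1⟩

/-- the local data -/
theorem mod_local (hf : IsNewforms L f) (hY : IsModularFamily f Y τ m t h M) (e : ι) :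
    (∀ᶠ p : Nat.Primes in cofinite, VG (NN t h) p ((Y e).frob p)) ∧
    ∀ᶠ p : Nat.Primes in cofinite, ∀ c,
      nt p ((Y e).frob p) c = ((TM f τ m e c p : ℝ) : ℂ) := by
  refine ⟨((Y e).GG (betti_le hY e)).mono fun p hp => hp.1, ?_⟩
  filter_upwards [(hY.type e).trace] with p hp c
  have hp0 : (0 : ℝ) < (p : ℕ) := by exact_mod_cast p.2.pos
  have hs : ((Real.sqrt (p : ℕ) : ℝ) : ℂ) ≠ 0 := by
    exact_mod_cast (Real.sqrt_pos.2 hp0).ne'
  unfold nt TM WW
  rw [hp c, mul_div_cancel_left₀ _ (pow_ne_zero c hs)]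
  push_cast
  congr 1
  unfold Finsupp.sum
  push_cast
  refine Finset.sum_congr rfl fun x _ => ?_
  congr 1
  unfold tt
  rw [rc_eq (hf.hecke x).real]
  push_cast
  rfl

end

end Pool.Agent.U187.MF
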