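import Pool.Agent.U187.MF.Fam

/-! Products of an arbitrary variety with many varieties of modular type: the orders at the edge. -/

set_option autoImplicit false

open Finset Filter Topology Complex Polynomial CongruenceSubgroup

namespace Pool.Agent.U187.MF

open scoped MatrixGroups
open Pool.Agent.H341R2 (E lam lam_tendsto lam_bounded)
open Pool.Agent.Y149.CM (LFun kunneth nt)
open Pool.Agent.Y149.PK
open Pool.Agent.Y149.TL (fam_universal betti_real base_zero)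

section
variable {Ω : Type} {L : Ω → ℕ} {f : ∀ x, CuspForm (Gamma0 (L x) : Subgroup (GL (Fin 2) ℝ)) 2}
  {ι : Type} {Y : ι → Variety} {τ : ι → ℕ → ℕ} {m : ι → ℕ → Ω →₀ ℕ} {t h : ℕ → ℕ} {M : ℕ}

/-- the constant -/
theorem KK_mod (N0 t h : ℕ → ℕ) (M k n : ℕ) :
    KK (fun a => (N0 a : ℝ)) (fun c => (NN t h c : ℝ)) (fun c => (t c : ℝ)) (fun c => (h c : ℝ))
      (Real.sqrt (2 * M)) k n ^ 2 =
      M / 2 * ((dimY N0 (NN t h) k n : ℝ) - dimY N0 t k n) ^ 2 := by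
  rw [KK_half _ _ _ _ _ (fun c => by unfold NN; push_cast; ring), bnd_cast, bnd_cast, mul_pow,
    div_pow, Real.sq_sqrt (by positivity)]
  ring

/-- **Mean square.** -/
theorem mod_mean (hf : IsNewforms L f) (hY : IsModularFamily f Y τ m t h M) (X : Variety)
    {B₀ : ℕ → Nat.Primes → ℂ[X]} (h₀ : ∀ c, IsEuler c (fun p => X.frob p c) (B₀ c)) {k n : ℕ}
    {B : (Fin k → ι) → Nat.Primes → ℂ[X]}
    (hB : ∀ l, IsEuler n (fun p => frobProd (X.frob p) (fun e => (Y e).frob p)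
      (List.ofFn l) n) (B l)) (J : Finset ι) {η : ℝ} (hη : 0 < η) :
    ∀ᶠ ε : ℝ in 𝓝[>] 0, (∀ l ∈ tuples J k, LFun (B l) ((n : ℂ) / 2 + 1 + ε) ≠ 0) ∧
      ∑ l ∈ tuples J k, (size n (B l) ε -
        QQ (fun c => size c (B₀ c) ε) (fun e c => (τ e c : ℝ)) (List.ofFn l) n) ^ 2 ≤
        M / 2 * ((dimY X.betti (NN t h) k n : ℝ) - dimY X.betti t k n) ^ 2 *
          (J.card : ℝ) ^ (k - 1) + η := by
  have h1 := main_gen (fam_mod hf hY) X.VG (γ := fun e p => (Y e).frob p)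
    (fun e => (mod_local hf hY e).1) (fun e => (mod_local hf hY e).2) hB
    (z := fun c ε => size c (B₀ c) ε) (fun c _ => base_size X (h₀ c)) J hη
  rw [KK_mod] at h1
  exact h1

theorem QQ_cast' (z : ℕ → ℤ) (τ : ι → ℕ → ℕ) (l : List ι) (n : ℕ) :
    QQ (fun c => (z c : ℝ)) (fun e c => (τ e c : ℝ)) l n =
      ((QQ z (fun e c => (τ e c : ℤ)) l n : ℤ) : ℝ) := by
  have := QQ_cast (τ := fun e c => (τ e c : ℤ)) z l n
  rw [← this]
  congr 1

/-- **Orders**, general form. -/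
theorem mod_order_gen (hf : IsNewforms L f) (hY : IsModularFamily f Y τ m t h M) (X : Variety)
    {k n : ℕ} {B : (Fin k → ι) → Nat.Primes → ℂ[X]}
    (hB : ∀ l, IsEuler n (fun p => frobProd (X.frob p) (fun e => (Y e).frob p)
      (List.ofFn l) n) (B l)) {z : ℕ → ℤ}
    (hz : ∀ c, c ≤ n →
      Tendsto (fun ε => (z c : ℝ) - E ε (ZZ X.betti X.frob c) / lam ε) (𝓝[>] 0) (𝓝 0))
    (J : Finset ι) (S : Finset (Fin k → ι)) (r : (Fin k → ι) → ℤ)
    (hS : ∀ l ∈ S, (∀ i, l i ∈ J) ∧ HasOrder n (B l) (-(r l))) :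
    2 * ∑ l ∈ S, (r l - QQ z (fun e c => (τ e c : ℤ)) (List.ofFn l) n) ^ 2 ≤
      M * ((dimY X.betti (NN t h) k n : ℤ) - dimY X.betti t k n) ^ 2 * (J.card : ℤ) ^ (k - 1) := by
  have h1 := main_order (fam_mod hf hY) X.VG (γ := fun e p => (Y e).frob p)
    (fun e => (mod_local hf hY e).1) (fun e => (mod_local hf hY e).2) hB
    (z := fun c _ => (z c : ℝ)) (fun c hc => hz c hc)
    (q := fun l => ((QQ z (fun e c => (τ e c : ℤ)) (List.ofFn l) n : ℤ) : ℝ))
    (fun l ε => QQ_cast' z τ _ n) J S r hS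
  rw [KK_mod] at h1
  have h2 : ((2 * ∑ l ∈ S, (r l - QQ z (fun e c => (τ e c : ℤ)) (List.ofFn l) n) ^ 2 : ℤ) : ℝ) ≤
      ((M * ((dimY X.betti (NN t h) k n : ℤ) - dimY X.betti t k n) ^ 2 *
        (J.card : ℤ) ^ (k - 1) : ℤ) : ℝ) := by
    push_cast
    linarith
  exact_mod_cast h2

/-- **Orders.** -/
theorem mod_order (hf : IsNewforms L f) (hY : IsModularFamily f Y τ m t h M) (X : Variety)
    {B₀ : ℕ → Nat.Primes → ℂ[X]} (h₀ : ∀ c, IsEuler c (fun p => X.frob p c) (B₀ c)) {k n : ℕ}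
    {B : (Fin k → ι) → Nat.Primes → ℂ[X]}
    (hB : ∀ l, IsEuler n (fun p => frobProd (X.frob p) (fun e => (Y e).frob p)
      (List.ofFn l) n) (B l)) {r₀ : ℕ → ℤ} (hr₀ : ∀ c, c ≤ n → HasOrder c (B₀ c) (-(r₀ c)))
    (J : Finset ι) (S : Finset (Fin k → ι)) (r : (Fin k → ι) → ℤ)
    (hS : ∀ l ∈ S, (∀ i, l i ∈ J) ∧ HasOrder n (B l) (-(r l))) :
    2 * ∑ l ∈ S, (r l - QQ r₀ (fun e c => (τ e c : ℤ)) (List.ofFn l) n) ^ 2 ≤
      M * ((dimY X.betti (NN t h) k n : ℤ) - dimY X.betti t k n) ^ 2 * (J.card : ℤ) ^ (k - 1) :=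
  mod_order_gen hf hY X hB (fun c hc => base_order X (h₀ c) (hr₀ c hc)) J S r hS

/-- **The varieties themselves** (`X` a point). -/
theorem mod_point (hf : IsNewforms L f) (hY : IsModularFamily f Y τ m t h M) {k n : ℕ}
    {B : (Fin k → ι) → Nat.Primes → ℂ[X]}
    (hB : ∀ l, IsEuler n (fun p => frobProd (point.frob p) (fun e => (Y e).frob p)
      (List.ofFn l) n) (B l))
    (J : Finset ι) (S : Finset (Fin k → ι)) (r : (Fin k → ι) → ℤ)
    (hS : ∀ l ∈ S, (∀ i, l i ∈ J) ∧ HasOrder n (B l) (-(r l))) :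
    2 * ∑ l ∈ S, (r l - QQ (fun c => if c = 0 then 1 else 0) (fun e c => (τ e c : ℤ))
        (List.ofFn l) n) ^ 2 ≤
      M * ((dimY point.betti (NN t h) k n : ℤ) - dimY point.betti t k n) ^ 2 *
        (J.card : ℤ) ^ (k - 1) :=
  mod_order_gen hf hY point hB (fun c _ => point_lim c) J S r hS

/-- **One infinite subfamily for all varieties.** -/
theorem mod_universal [Infinite ι] (hf : IsNewforms L f) (hY : IsModularFamily f Y τ m t h M)
    (X : ℕ → Variety) {B : ℕ → List ι → ℕ → Nat.Primes → ℂ[X]} (hB : ∀ j, IsSystem (X j) Y (B j))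
    {r : ℕ → List ι → ℕ → ℤ} (hr : ∀ j l n, HasOrder n (B j l n) (-(r j l n))) :
    ∃ 𝒥 : Set ι, 𝒥.Infinite ∧ ∀ j, ∃ F : Finset ι, (∀ x ∈ F, x ∈ 𝒥) ∧
      ∀ (k : ℕ) (l : Fin k → ι), Function.Injective l → (∀ i, l i ∈ 𝒥 ∧ l i ∉ F) →
      ∀ n, r j (List.ofFn l) n = QQ (r j []) (fun e c => (τ e c : ℤ)) (List.ofFn l) n := by
  have hfam := fam_mod hf hY
  have e0 : (fun e c => (τ e c : ℝ)) = fun (e : ι) (c : ℕ) => (((τ e c : ℤ)) : ℝ) := by
    funext e c
    simp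
  rw [e0] at hfam
  obtain ⟨d, hd⟩ := hY.bounded
  have hlim : ∀ j l n, Tendsto (fun ε => E ε (PP (ZZ (X j).betti (X j).frob)
      (TM f τ m) l n) / lam ε) (𝓝[>] 0) (𝓝 (r j l n : ℝ)) := by
    intro j l n
    have h1 := size_sub (fun p => PP_le hfam.bd (ZZ_le (X j).betti (X j).frob) l n p)
      (link_prod (X j).VG (γ := fun e p => (Y e).frob p)
        (fun e => (mod_local hf hY e).1) (fun e => (mod_local hf hY e).2) hfam.bd l (hB j l n))
    have h2 := (size_order (hr j l n)).sub h1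
    rw [sub_zero] at h2
    exact h2.congr fun ε => by ring
  exact fam_universal hfam (τ := fun e c => (τ e c : ℤ))
    (fun j => ZZ_le (X j).betti (X j).frob) hlim (d₀ := fun j => 2 * (X j).dim) (d := d)
    (fun j c hc => betti_real (X j) hc) (fun c hc => by
      unfold NN
      rw [(hd c hc).1, (hd c hc).2]
      simp) (fun j c hc => base_zero (hlim j) hc) (fun e c hc => by
      have := hY.lines e c
      rw [(hd c hc).1] at this
      have h2 : τ e c = 0 := by omega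
      rw [h2]
      rfl)

end

end Pool.Agent.U187.MF
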